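import Pool.Agent.MP_88bd62_nt.B.DA

namespace Pool.Agent.MP_88bd62_nt.B

set_option maxRecDepth 100000 in
theorem wB10 : winB tr 5180 28728833 6515084047 82597459 175653686877 = true := by
  decide +kernel

end Pool.Agent.MP_88bd62_nt.B
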