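import Pool.Agent.MP_88bd62_nt.B.DA

namespace Pool.Agent.MP_88bd62_nt.B

set_option maxRecDepth 100000 in
theorem wC3 : winC tr 4970 9274881 32070002142 56345080 56605936709 = true := by
  decide +kernel

end Pool.Agent.MP_88bd62_nt.B
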