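import Pool.Agent.MP_88bd62_nt.B.DA

namespace Pool.Agent.MP_88bd62_nt.B

set_option maxRecDepth 100000 in
theorem wW : winW tr 1383996 13545983256 28807204647732 10770078341894409261646296
  [(1698569, 377855), (1918770, 106933), (2138971, 57554), (2390629, 36690), (2673744, 22906),
    (2988317, 14168), (3334347, 8756), (3743292, 5769), (4215151, 3631), (4781382, 2322),
    (5473442, 1453), (6417161, 938)] = true := by
  decide +kernel

end Pool.Agent.MP_88bd62_nt.B
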